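import Pool.Agent.H63.TC.Stmts

/-!
# Project TC, module BND: Harnack inequality for the elements of the cone
-/

open Complex Metric Set Filter Topology

namespace Pool.Agent.H63.TC

theorem bnd (h : HarStmt) : BndStmt := by
  intro V _ _ A K₀ K hK₀ hK
  -- a compact sheet ball inside `K₀`
  obtain ⟨p₀, hp₀⟩ := hK₀
  obtain ⟨K₁, hK₁c, hK₁n, hK₁⟩ : ∃ K₁ : Set V, IsCompact K₁ ∧ K₁ ∈ 𝓝 p₀ ∧ K₁ ⊆ K₀ := by
    have := A.locallyCompact
    obtain ⟨K₁, h1, h2, h3⟩ := local_compact_nhds (mem_interior_iff_mem_nhds.1 hp₀)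
    exact ⟨K₁, h3, h1, h2⟩
  obtain ⟨C, hC, c, hc, hH⟩ := h V A K₁ K ⟨p₀, mem_interior_iff_mem_nhds.2 hK₁n⟩ hK
  refine ⟨C, fun ξ hξ M hM p hp => ?_⟩
  have hM0 : 0 ≤ M := (norm_nonneg _).trans (hM p₀ (interior_subset hp₀))
  -- approximation
  have key : ∀ ε > 0, ε < 1 → ε * (M + 1) ≤ c → ‖ξ p‖ ≤ C * (M + ε) + ε := by
    intro ε hε hε1 hεc
    obtain ⟨F, hF, s, hs0, hs1, hcl, hap⟩ := hξ (K₁ ∪ K) (hK₁c.union hK) ε hε
    have h1 : A.Close K₁ (s * (M + ε)) F := by
      intro q hq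
      obtain ⟨_, h3, h4⟩ := hcl q (Or.inl hq)
      refine ⟨?_, h3, h4⟩
      have h5 := hap q (Or.inl hq)
      have h6 : ‖(s : ℂ) • ξ q‖ ≤ s * M := by
        rw [norm_smul, Complex.norm_real, Real.norm_of_nonneg hs0.le]
        exact mul_le_mul_of_nonneg_left (hM q (hK₁ hq)) hs0.le
      have h7 : ‖A.E (F q) - A.E q‖ ≤ ‖A.E (F q) - A.E q - (s : ℂ) • ξ q‖ + ‖(s : ℂ) • ξ q‖ := by
        have := norm_add_le (A.E (F q) - A.E q - (s : ℂ) • ξ q) ((s : ℂ) • ξ q)
        simpa using this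
      nlinarith
    have hpos : 0 < s * (M + ε) := by positivity
    have hle : s * (M + ε) ≤ c := by
      have : s * (M + ε) ≤ ε * (M + 1) := by
        apply mul_le_mul hs1.le (by linarith) (by positivity) hε.le
      linarith
    have h8 := (hH _ hpos hle F hF h1 p hp).1
    have h9 := hap p (Or.inr hp)
    have h10 : ‖(s : ℂ) • ξ p‖ ≤ C * (s * (M + ε)) + ε * s := by
      have h11 : (s : ℂ) • ξ p = (A.E (F p) - A.E p) -
          (A.E (F p) - A.E p - (s : ℂ) • ξ p) := by abel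
      rw [h11]
      exact (norm_sub_le _ _).trans (add_le_add h8 h9)
    rw [norm_smul, Complex.norm_real, Real.norm_of_nonneg hs0.le] at h10
    have h12 : s * ‖ξ p‖ ≤ s * (C * (M + ε) + ε) := by linarith
    exact le_of_mul_le_mul_left h12 hs0
  by_contra hn
  push Not at hn
  -- let `ε` be small
  set d := ‖ξ p‖ - C * M with hd
  have hd0 : 0 < d := by linarith
  have hCp : 0 < C + 1 := by linarith
  have hMp : 0 < M + 1 := by linarith
  set ε := min (1 / 2) (min (c / (M + 1)) (d / (2 * (C + 1)))) with hε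
  have hε0 : 0 < ε := by
    apply lt_min (by norm_num)
    apply lt_min
    · positivity
    · positivity
  have h1 : ε ≤ 1 / 2 := min_le_left _ _
  have h2 : ε ≤ c / (M + 1) := (min_le_right _ _).trans (min_le_left _ _)
  have h3 : ε ≤ d / (2 * (C + 1)) := (min_le_right _ _).trans (min_le_right _ _)
  have h4 := key ε hε0 (by linarith) (by rwa [le_div_iff₀ hMp] at h2)
  rw [le_div_iff₀ (by positivity)] at h3
  nlinarith

end Pool.Agent.H63.TC
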