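import Pool.Agent.H63.TC.Stmts

/-!
# Project TC, modules IDT and IDS: identity theorems on `V`
-/

open Complex Metric Set Filter Topology

namespace Pool.Agent.H63.TC

/-- identity theorem on a convex open subset of `ℂ × ℂ` -/
lemma idt_ball {F : Type} [NormedAddCommGroup F] [NormedSpace ℂ F] [CompleteSpace F]
    {φ : ℂ × ℂ → F} {B : Set (ℂ × ℂ)} (hB : IsOpen B) (hc : Convex ℝ B)
    (hφ : DifferentiableOn ℂ φ B) {m₀ : ℂ × ℂ} (hm₀ : m₀ ∈ B) (h0 : ∀ᶠ m in 𝓝 m₀, φ m = 0) :
    ∀ m ∈ B, φ m = 0 := by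
  intro m hm
  let g : ℂ → ℂ × ℂ := fun t => m₀ + t • (m - m₀)
  have hg : Continuous g := by fun_prop
  have hgd : Differentiable ℂ g := by
    intro t
    fun_prop
  have hU : IsOpen (g ⁻¹' B) := hB.preimage hg
  have hconv : Convex ℝ (g ⁻¹' B) := by
    intro s hs t ht a b ha hb hab
    have : g (a • s + b • t) = a • g s + b • g t := by
      have hab' : (a : ℂ) + b = 1 := by exact_mod_cast hab
      have e1 : m₀ = (a : ℂ) • m₀ + (b : ℂ) • m₀ := by rw [← add_smul, hab', one_smul]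
      simp only [g]
      rw [smul_add, smul_add]
      have e2 : ∀ (r : ℝ) (v : ℂ × ℂ), r • v = (r : ℂ) • v := fun r v => by
        ext <;> simp
      simp only [e2, Complex.real_smul, add_smul, mul_smul]
      nth_rewrite 1 [e1]
      abel
    show g (a • s + b • t) ∈ B
    rw [this]
    exact hc hs ht ha hb hab
  have h1 : DifferentiableOn ℂ (fun t => φ (g t)) (g ⁻¹' B) :=
    hφ.comp hgd.differentiableOn (fun t ht => ht)
  have h2 := h1.analyticOnNhd hU
  have hg0 : g 0 = m₀ := by simp [g]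
  have hg1 : g 1 = m := by simp [g]
  have h3 : (fun t => φ (g t)) =ᶠ[𝓝 0] 0 := by
    have : Tendsto g (𝓝 0) (𝓝 m₀) := by
      have := hg.tendsto 0
      rwa [hg0] at this
    exact this.eventually h0
  have h4 := h2.eqOn_zero_of_preconnected_of_eventuallyEq_zero hconv.isPreconnected
    (show (0 : ℂ) ∈ g ⁻¹' B by simpa [hg0] using hm₀) h3
  have h5 := h4 (show (1 : ℂ) ∈ g ⁻¹' B by simpa [hg1] using hm)
  simpa [hg1] using h5

theorem idt : IdtStmt := by
  intro V _ _ A F _ _ _ f g O hf hg hO hne hfg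
  have hclopen : IsClopen {p | ∀ᶠ q in 𝓝 p, f q = g q} := by
    refine ⟨?_, ?_⟩
    · rw [← closure_subset_iff_isClosed]
      intro p hp
      have h1 : ∀ᶠ q in 𝓝 p, A.E q ∈ ball (A.E p) (dd (A.E p)) :=
        A.cont_E.continuousAt.eventually (isOpen_ball.mem_nhds (A.self_mem p))
      obtain ⟨q, hq, hq1, hq2⟩ := (mem_closure_iff_frequently.1 hp).and_eventually
        (h1.and (A.near p)) |>.exists
      have h2 : DifferentiableOn ℂ (fun m => f (A.sec p m) - g (A.sec p m))
          (ball (A.E p) (dd (A.E p))) :=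
        (hf.differentiableOn_sec p).sub (hg.differentiableOn_sec p)
      have h3 : ∀ᶠ m in 𝓝 (A.E q), f (A.sec p m) - g (A.sec p m) = 0 := by
        have h4 : Tendsto (A.sec p) (𝓝 (A.E q)) (𝓝 q) := by
          have := (A.continuousAt_sec p hq1).tendsto
          rwa [hq2] at this
        filter_upwards [h4.eventually hq] with m hm
        rw [hm, sub_self]
      have h5 := idt_ball isOpen_ball (convex_ball _ _) h2 hq1 h3
      show ∀ᶠ q in 𝓝 p, f q = g q
      filter_upwards [h1, A.near p] with q' h6 h7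
      have := h5 _ h6
      rw [h7] at this
      exact sub_eq_zero.1 this
    · rw [isOpen_iff_mem_nhds]
      intro p hp
      exact eventually_eventually_nhds.2 hp
  obtain ⟨p₀, hp₀⟩ := hne
  have hne' : {p | ∀ᶠ q in 𝓝 p, f q = g q}.Nonempty :=
    ⟨p₀, by
      show ∀ᶠ q in 𝓝 p₀, f q = g q
      filter_upwards [hO.mem_nhds hp₀] with q hq using hfg q hq⟩
  have huniv := hclopen.eq_univ hne'
  intro p
  have : p ∈ {p | ∀ᶠ q in 𝓝 p, f q = g q} := by rw [huniv]; trivial
  exact (show ∀ᶠ q in 𝓝 p, f q = g q from this).self_of_nhds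

theorem ids (h : IdtStmt) : IdsStmt := by
  intro V _ _ A F O hF hO hne hFO
  have h1 : ∀ p, A.E (F p) = A.E p :=
    h V A (ℂ × ℂ) (fun p => A.E (F p)) A.E O hF.2 A.hol_E hO hne
      (fun p hp => by rw [hFO p hp])
  obtain ⟨p₀, hp₀⟩ := hne
  intro p
  exact A.eqOn_of_E (S := univ) isPreconnected_univ hF.1.continuousOn continuousOn_id
    (fun t _ => h1 t) (mem_univ p₀) (hFO p₀ hp₀) (mem_univ p)

end Pool.Agent.H63.TC
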