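import Pool.Agent.H63.TC.Stmts

/-!
# Project TC, module NRM: convergence to the identity spreads
-/

open Complex Metric Set Filter Topology

namespace Pool.Agent.H63.TC

/-- the Cayley transform of the upper half plane -/
noncomputable def nrmC (τ : ℂ) : ℂ := (τ - I) / (τ + I)

/-- its inverse -/
noncomputable def nrmD (w : ℂ) : ℂ := I * (1 + w) / (1 - w)

lemma nrm_add_I {τ : ℂ} (h : 0 < τ.im) : τ + I ≠ 0 := by
  intro h0
  have := congrArg Complex.im h0
  simp at this
  linarith

lemma nrm_norm_lt {τ : ℂ} (h : 0 < τ.im) : ‖nrmC τ‖ < 1 := by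
  unfold nrmC
  rw [norm_div, div_lt_one (norm_pos_iff.2 (nrm_add_I h))]
  rw [← sq_lt_sq₀ (norm_nonneg _) (norm_nonneg _), ← Complex.normSq_eq_norm_sq,
    ← Complex.normSq_eq_norm_sq, Complex.normSq_apply, Complex.normSq_apply]
  simp
  nlinarith

lemma nrm_DC {τ : ℂ} (h : 0 < τ.im) : nrmD (nrmC τ) = τ := by
  have h1 := nrm_add_I h
  unfold nrmD nrmC
  have h2 : 1 - (τ - I) / (τ + I) = 2 * I / (τ + I) := by
    field_simp
    ring
  have h3 : 1 + (τ - I) / (τ + I) = 2 * τ / (τ + I) := by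
    field_simp
    ring
  rw [h2, h3]
  have h4 : (I : ℂ) ≠ 0 := I_ne_zero
  field_simp

lemma nrm_one_sub {w : ℂ} (h : ‖w‖ < 1) : 1 - w ≠ 0 := by
  intro h0
  have : w = 1 := (sub_eq_zero.1 h0).symm
  rw [this] at h
  simp at h

lemma nrm_D_im {w : ℂ} (h : ‖w‖ < 1) : 0 < (nrmD w).im := by
  have h1 := nrm_one_sub h
  unfold nrmD
  have h2 : 0 < Complex.normSq (1 - w) := Complex.normSq_pos.2 h1
  have h3 : Complex.normSq w < 1 := by
    rw [Complex.normSq_eq_norm_sq]
    nlinarith [norm_nonneg w]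
  rw [Complex.div_im]
  have e : (I * (1 + w)).im * (1 - w).re / Complex.normSq (1 - w) -
      (I * (1 + w)).re * (1 - w).im / Complex.normSq (1 - w) =
      (1 - Complex.normSq w) / Complex.normSq (1 - w) := by
    rw [← sub_div]
    congr 1
    simp [Complex.normSq_apply]
    ring
  rw [e]
  exact div_pos (by linarith) h2

lemma nrm_contD {w : ℂ} (h : ‖w‖ < 1) : ContinuousAt nrmD w := by
  unfold nrmD
  refine ContinuousAt.div ?_ ?_ (nrm_one_sub h)
  · fun_prop
  · fun_prop

/-- the bounded function on `V` -/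
noncomputable def nrmG {V : Type} [TopologicalSpace V] {A : Atlas V} (W : Ell A) (p : V) : ℂ :=
  nrmC (W.W p).1

lemma nrm_holG {V : Type} [TopologicalSpace V] {A : Atlas V} (W : Ell A) (hW : WhlStmt) :
    A.Hol (nrmG W) := by
  intro p
  have h1 := (hW V A W).1 p
  have h2 : DifferentiableAt ℂ (fun m => (W.W (A.sec p m)).1) (A.E p) := by
    have := h1.fst
    exact this
  have h3 : (W.W (A.sec p (A.E p))).1 + I ≠ 0 := nrm_add_I (W.mem _).1
  have h4 : DifferentiableAt ℂ
      (fun m => ((W.W (A.sec p m)).1 - I) * ((W.W (A.sec p m)).1 + I)⁻¹) (A.E p) :=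
    (h2.sub_const I).mul ((h2.add_const I).inv h3)
  exact h4

/-- **core step**: near `q` the maps converge to the identity; then the first coordinate
converges near `p` -/
lemma nrm_core {V : Type} [TopologicalSpace V] {A : Atlas V} (W : Ell A) (hW : WhlStmt)
    (hT : TwoStmt) (hlam : ContinuousOn lam {τ : ℂ | 0 < τ.im}) {ι : Type} (l : Filter ι)
    (F : ι → V → V) (hF : ∀ i, A.HolSelf (F i)) {p q : V} {R : ℝ} (hR : 0 < R)
    (hR2 : 2 * R ≤ dd (A.E p)) (hq : A.E q ∈ ball (A.E p) (R / 16))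
    (hqp : A.sec p (A.E q) = q) {N : Set V} (hN : N ∈ 𝓝 q)
    (hcl : ∀ c > 0, ∀ᶠ i in l, A.Close N c (F i)) :
    ∀ ε > 0, ∀ᶠ i in l, ∀ m ∈ closedBall (A.E p) (R / 8),
      ‖(A.E (F i (A.sec p m))).1 - m.1‖ ≤ ε := by
  have hg := nrm_holG W hW
  have hqB : A.E q ∈ ball (A.E p) (dd (A.E p)) := ball_subset_ball (by linarith) hq
  have hballR : ball (A.E q) R ⊆ ball (A.E p) (dd (A.E p)) := by
    intro m hm
    rw [mem_ball] at hm hq ⊢
    have := dist_triangle m (A.E q) (A.E p)
    linarith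
  -- claim A
  obtain ⟨r, hr0, hrR, hrN⟩ : ∃ r > 0, r < R / 2 ∧ ∀ m ∈ ball (A.E q) (2 * r), A.sec p m ∈ N := by
    have h1 : Tendsto (A.sec p) (𝓝 (A.E q)) (𝓝 q) := by
      have := (A.continuousAt_sec p hqB).tendsto
      rwa [hqp] at this
    obtain ⟨r, hr, hrN⟩ := Metric.mem_nhds_iff.1 (h1 hN)
    refine ⟨min (r / 2) (R / 4), by positivity, ?_, ?_⟩
    · have := min_le_right (r / 2) (R / 4)
      linarith
    · intro m hm
      apply hrN
      refine ball_subset_ball ?_ hm
      have := min_le_left (r / 2) (R / 4)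
      linarith
  have hA : ∀ δ > 0, ∀ᶠ i in l, ∀ m ∈ ball (A.E q) r,
      ‖nrmG W (F i (A.sec p m)) - nrmG W (A.sec p m)‖ ≤ δ := by
    intro δ hδ
    have hcpt : IsCompact (closedBall (A.E q) (2 * r)) := isCompact_closedBall _ _
    have hsub : closedBall (A.E q) (2 * r) ⊆ ball (A.E p) (dd (A.E p)) :=
      (closedBall_subset_ball (by linarith)).trans hballR
    have hcont : ContinuousOn (fun m => nrmG W (A.sec p m)) (closedBall (A.E q) (2 * r)) :=
      (hg.differentiableOn_sec p).continuousOn.mono hsub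
    have huc := hcpt.uniformContinuousOn_of_continuous hcont
    rw [Metric.uniformContinuousOn_iff] at huc
    obtain ⟨η, hη, huc⟩ := huc δ hδ
    filter_upwards [hcl (min (η / 2) r) (by positivity)] with i hi m hm
    have hmN : A.sec p m ∈ N := hrN m (ball_subset_ball (by linarith) hm)
    have hmB : m ∈ ball (A.E p) (dd (A.E p)) := hballR (ball_subset_ball (by linarith) hm)
    obtain ⟨h1, h2, h3⟩ := hi _ hmN
    rw [A.E_sec p m hmB] at h1 h2
    set m' := A.E (F i (A.sec p m)) with hm'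
    have hd : dist m' m ≤ min (η / 2) r := by rw [dist_eq_norm]; exact h1
    have hm'2 : m' ∈ closedBall (A.E q) (2 * r) := by
      rw [mem_closedBall]
      rw [mem_ball] at hm
      have := dist_triangle m' m (A.E q)
      have := min_le_right (η / 2) r
      linarith
    have h4 : A.sec p m' = F i (A.sec p m) := by
      rw [← h3]
      refine (A.sec_sec hmB (hsub hm'2) ?_).symm
      rw [mem_ball, dist_eq_norm]
      exact h2
    rw [← h4, ← dist_eq_norm]
    refine (huc m' hm'2 m (ball_subset_closedBall (ball_subset_ball (by linarith) hm)) ?_).le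
    have := min_le_left (η / 2) r
    linarith
  -- claim B
  have hB : ∀ δ > 0, ∀ᶠ i in l, ∀ m ∈ ball (A.E q) (R / 2),
      ‖nrmG W (F i (A.sec p m)) - nrmG W (A.sec p m)‖ ≤ δ := by
    intro δ hδ
    obtain ⟨δ', hδ', htwo⟩ := hT (A.E q) r R 2 hr0 (by linarith) δ hδ
    filter_upwards [hA δ' hδ'] with i hi
    refine htwo _ ?_ ?_ hi
    · exact (((hg.comp_self (hF i)).differentiableOn_sec p).sub
        (hg.differentiableOn_sec p)).mono hballR
    · intro m _
      have h1 := nrm_norm_lt (W.mem (F i (A.sec p m))).1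
      have h2 := nrm_norm_lt (W.mem (A.sec p m)).1
      have h3 := norm_sub_le (nrmG W (F i (A.sec p m))) (nrmG W (A.sec p m))
      unfold nrmG at *
      linarith
  -- conversion
  intro ε hε
  set Kc : Set ℂ := (fun m => nrmG W (A.sec p m)) '' closedBall (A.E p) (R / 8) with hKc
  have hKcc : IsCompact Kc := by
    refine (isCompact_closedBall _ _).image_of_continuousOn ?_
    refine (hg.differentiableOn_sec p).continuousOn.mono ?_
    exact closedBall_subset_ball (by linarith)
  have hcontL : ∀ w ∈ Kc, ContinuousAt (fun w => lam (nrmD w)) w := by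
    rintro _ ⟨m, _, rfl⟩
    have h1 := nrm_norm_lt (W.mem (A.sec p m)).1
    refine ContinuousAt.comp (f := nrmD) (g := lam) ?_ (nrm_contD h1)
    refine hlam.continuousAt ?_
    exact (isOpen_lt continuous_const Complex.continuous_im).mem_nhds (nrm_D_im h1)
  have hu := hKcc.uniformContinuousAt_of_continuousAt _ hcontL (dist_mem_uniformity hε)
  obtain ⟨δ, hδ, hu⟩ := Metric.mem_uniformity_dist.1 hu
  filter_upwards [hB (δ / 2) (by positivity)] with i hi m hm
  have hmB : m ∈ ball (A.E p) (dd (A.E p)) := closedBall_subset_ball (by linarith) hm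
  have hm2 : m ∈ ball (A.E q) (R / 2) := by
    rw [mem_ball]
    rw [mem_closedBall] at hm
    rw [mem_ball] at hq
    have := dist_triangle m (A.E p) (A.E q)
    rw [dist_comm (A.E p) (A.E q)] at this
    linarith
  have h1 := hi m hm2
  have h2 : dist (nrmG W (A.sec p m)) (nrmG W (F i (A.sec p m))) < δ := by
    rw [dist_comm, dist_eq_norm]
    linarith
  have h3 := hu h2 ⟨m, hm, rfl⟩
  simp only at h3
  have h4 : ∀ x : V, lam (nrmD (nrmG W x)) = (A.E x).1 := by
    intro x
    unfold nrmG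
    rw [nrm_DC (W.mem x).1, ← W.Phi_W x]
    rfl
  rw [h4, h4, A.E_sec p m hmB] at h3
  have h5 : dist m.1 (A.E (F i (A.sec p m))).1 < ε := h3
  rw [dist_comm, dist_eq_norm] at h5
  exact h5.le

lemma nrm_swap_self {V : Type} [TopologicalSpace V] {A : Atlas V} {F : V → V}
    (h : A.HolSelf F) : A.swap.HolSelf F := by
  refine ⟨h.1, fun p => ?_⟩
  have h1 := h.2 p
  have h2 : DifferentiableAt ℂ (fun m : ℂ × ℂ => m.swap) (A.swap.E p) := by
    have : (fun m : ℂ × ℂ => m.swap) = fun m => (m.2, m.1) := rfl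
    rw [this]
    fun_prop
  have h3 : DifferentiableAt ℂ (fun m : ℂ × ℂ => A.E (F (A.sec p m.swap))) (A.swap.E p) := by
    refine DifferentiableAt.comp (g := fun m => A.E (F (A.sec p m)))
      (f := fun m : ℂ × ℂ => m.swap) (A.swap.E p) ?_ h2
    rw [A.swap_E, Prod.swap_swap]
    exact h1
  have h4 : (fun m : ℂ × ℂ => A.swap.E (F (A.swap.sec p m))) =
      fun m => ((A.E (F (A.sec p m.swap))).2, (A.E (F (A.sec p m.swap))).1) := rfl
  rw [h4]
  exact h3.snd.prodMk h3.fst

lemma nrm_swap_close {V : Type} [TopologicalSpace V] {A : Atlas V} {F : V → V} {K : Set V}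
    {c : ℝ} (h : A.Close K c F) : A.swap.Close K c F := by
  intro p hp
  obtain ⟨h1, h2, h3⟩ := h p hp
  refine ⟨?_, ?_, ?_⟩
  · rw [A.swap_E, A.swap_E, ← Prod.swap_sub, norm_swap]; exact h1
  · rw [A.swap_E, A.swap_E, ← Prod.swap_sub, norm_swap, dd_swap]; exact h2
  · rw [A.swap_sec, A.swap_E, Prod.swap_swap]; exact h3

theorem nrm (hT : TwoStmt) (hW : WhlStmt) (hne : WneStmt) (hL : LmdStmt) : NrmStmt := by
  intro V _ _ A K₀ hK₀ ι l F hF hcl
  have hlam : ContinuousOn lam {τ : ℂ | 0 < τ.im} := fun τ hτ =>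
    (hL τ hτ).1.continuousAt.continuousWithinAt
  obtain ⟨W1⟩ := hne V A
  obtain ⟨W2⟩ := hne V A.swap
  set Ω : Set V := {p | ∃ N ∈ 𝓝 p, ∀ c > 0, ∀ᶠ i in l, A.Close N c (F i)} with hΩ
  have hopen : IsOpen Ω := by
    rw [isOpen_iff_mem_nhds]
    rintro p ⟨N, hN, h⟩
    filter_upwards [eventually_mem_nhds_iff.2 hN] with q hq
    exact ⟨N, hq, h⟩
  have hclosed : IsClosed Ω := by
    rw [← closure_subset_iff_isClosed]
    intro p hp
    have hdd := A.dd_pos p
    set R := dd (A.E p) / 4 with hRdef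
    have hR : 0 < R := by positivity
    have h1 : ∀ᶠ q in 𝓝 p, A.E q ∈ ball (A.E p) (R / 16) :=
      A.cont_E.continuousAt.eventually (ball_mem_nhds _ (by positivity))
    obtain ⟨q, ⟨N, hN, hNcl⟩, hq1, hq2⟩ := (mem_closure_iff_frequently.1 hp).and_eventually
      (h1.and (A.near p)) |>.exists
    have hc1 := nrm_core W1 hW hT hlam l F hF hR (by rw [hRdef]; linarith) hq1 hq2 hN hNcl
    have hc2 := nrm_core (A := A.swap) W2 hW hT hlam l F (fun i => nrm_swap_self (hF i))
      (p := p) (q := q) (R := R) hR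
      (by rw [A.swap_E, dd_swap, hRdef]; linarith)
      (by rw [A.swap_E, A.swap_E]; exact swap_mem_ball hq1)
      (by rw [A.swap_sec, A.swap_E, Prod.swap_swap]; exact hq2) hN
      (fun c hc => (hNcl c hc).mono (fun i hi => nrm_swap_close hi))
    have hE : ∀ ε > 0, ∀ᶠ i in l, ∀ m ∈ closedBall (A.E p) (R / 8),
        ‖A.E (F i (A.sec p m)) - m‖ ≤ ε := by
      intro ε hε
      filter_upwards [hc1 ε hε, hc2 ε hε] with i hi1 hi2 m hm
      rw [Prod.norm_def]
      refine max_le (hi1 m hm) ?_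
      have h2 := hi2 m.swap (by
        rw [A.swap_E, mem_closedBall, dist_eq_norm, ← Prod.swap_sub, norm_swap,
          ← dist_eq_norm]
        exact hm)
      rw [A.swap_sec, A.swap_E, Prod.swap_swap] at h2
      exact h2
    -- the sheet ball
    have hsubB : closedBall (A.E p) (R / 8) ⊆ ball (A.E p) (dd (A.E p)) :=
      closedBall_subset_ball (by rw [hRdef]; linarith)
    obtain ⟨κ, hκ, hκdd⟩ : ∃ κ > 0, ∀ m ∈ closedBall (A.E p) (R / 8), κ < dd m := by
      obtain ⟨m₀, hm₀, hmin⟩ := (isCompact_closedBall (A.E p) (R / 8)).exists_isMinOn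
        ⟨A.E p, mem_closedBall_self (by positivity)⟩ continuous_dd.continuousOn
      have h3 : 0 < dd m₀ := dd_pos (ball_dd_subset (hsubB hm₀))
      refine ⟨dd m₀ / 2, by positivity, fun m hm => ?_⟩
      have : dd m₀ ≤ dd m := hmin hm
      linarith
    refine ⟨A.sb p (R / 8), A.sb_mem_nhds p (by positivity), fun c hc => ?_⟩
    have hmin0 : 0 < min c (min κ R) := by positivity
    filter_upwards [hE _ hmin0, hNcl 1 one_pos] with i hi hNi
    have hb1 : ∀ m ∈ closedBall (A.E p) (R / 8), ‖A.E (F i (A.sec p m)) - m‖ ≤ c := fun m hm =>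
      (hi m hm).trans (min_le_left _ _)
    have hb2 : ∀ m ∈ closedBall (A.E p) (R / 8), ‖A.E (F i (A.sec p m)) - m‖ < dd m :=
      fun m hm => ((hi m hm).trans ((min_le_right _ _).trans (min_le_left _ _))).trans_lt
        (hκdd m hm)
    have hb3 : ∀ m ∈ closedBall (A.E p) (R / 8),
        A.E (F i (A.sec p m)) ∈ ball (A.E p) (dd (A.E p)) := by
      intro m hm
      have h3 := (hi m hm).trans ((min_le_right _ _).trans (min_le_right _ _))
      rw [← dist_eq_norm] at h3
      rw [mem_closedBall] at hm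
      rw [mem_ball]
      have := dist_triangle (A.E (F i (A.sec p m))) m (A.E p)
      rw [hRdef] at h3 hm
      linarith
    -- `F i (sec p m) = sec p (E (F i (sec p m)))`
    have hqcb : A.E q ∈ closedBall (A.E p) (R / 8) := by
      refine ball_subset_closedBall (ball_subset_ball ?_ hq1)
      linarith
    have hcontF : ContinuousOn (fun m => F i (A.sec p m)) (closedBall (A.E p) (R / 8)) :=
      (hF i).1.comp_continuousOn ((A.cont_sec_right p).mono hsubB)
    have heq : EqOn (fun m => F i (A.sec p m)) (fun m => A.sec p (A.E (F i (A.sec p m))))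
        (closedBall (A.E p) (R / 8)) := by
      refine A.eqOn_of_E (convex_closedBall _ _).isPreconnected hcontF ?_ ?_ hqcb ?_
      · exact (A.cont_sec_right p).comp (A.cont_E.comp_continuousOn hcontF) hb3
      · intro m hm
        rw [A.E_sec p _ (hb3 m hm)]
      · rw [hq2]
        obtain ⟨_, h4, h5⟩ := hNi q (mem_of_mem_nhds hN)
        have h6 := hb3 _ hqcb
        rw [hq2] at h6
        rw [← A.sec_sec (hsubB hqcb) h6 (by rw [mem_ball, dist_eq_norm]; exact h4), hq2, h5]
    rintro _ ⟨m, hm, rfl⟩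
    rw [A.E_sec p m (hsubB hm)]
    refine ⟨hb1 m hm, hb2 m hm, ?_⟩
    rw [A.sec_sec (hsubB hm) (hb3 m hm) (by rw [mem_ball, dist_eq_norm]; exact hb2 m hm)]
    exact (heq hm).symm
  have hneΩ : Ω.Nonempty := by
    obtain ⟨p, hp⟩ := hK₀
    exact ⟨p, K₀, mem_interior_iff_mem_nhds.1 hp, hcl⟩
  have huniv : Ω = univ := (show IsClopen Ω from ⟨hclosed, hopen⟩).eq_univ hneΩ
  intro K hK
  refine hK.induction_on (p := fun S => ∀ c > 0, ∀ᶠ i in l, A.Close S c (F i)) ?_ ?_ ?_ ?_
  · intro c _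
    exact Eventually.of_forall (fun i p hp => absurd hp (notMem_empty p))
  · intro S T hST h c hc
    filter_upwards [h c hc] with i hi p hp using hi p (hST hp)
  · intro S T hS hT' c hc
    filter_upwards [hS c hc, hT' c hc] with i h1 h2 p hp
    rcases hp with hp | hp
    · exact h1 p hp
    · exact h2 p hp
  · intro p _
    have : p ∈ Ω := by rw [huniv]; trivial
    obtain ⟨N, hN, h⟩ := this
    exact ⟨N, mem_nhdsWithin_of_mem_nhds hN, h⟩

end Pool.Agent.H63.TC
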